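import Pool.Agent.Q129.Halin.Sound

/-!
Every cubic Halin graph of order at least six is 2-tone 6-colourable.
-/

set_option autoImplicit false

namespace Pool.Agent.Results.MP_fbe6c8_co.AllHalin

open Q129.Halin

/-- Every cubic Halin graph of order at least `6` is `2`-tone `6`-colourable. -/
theorem result (t₁ t₂ : BT) (h : 6 ≤ Nat.card (BT.V t₁ ⊕ BT.V t₂)) :
    IsToneColorable (halin t₁ t₂) 2 6 :=
  Q129.Halin.main t₁ t₂ h

end Pool.Agent.Results.MP_fbe6c8_co.AllHalin
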